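import Pool.Agent.Lib.MP_644796_gt.KnotDiagram

/-!
# Alternating knots whose Alexander polynomials have zeros with arbitrarily large real part

The examples are the alternating Montesinos knots
`M(1; 2/3, ..., 2/3, 1/2)` with `n` entries `2/3`; they have `3 n + 3` crossings, and their
Alexander polynomial is `(1 - t + t^2)^(n-1) ((1 - t + t^2)^2 - n t (1 - t)^2)` up to a unit, which
has a real zero close to `n` when `n` is large. (For `n = 1` this is the knot `6_3`.) The proof
does not compute this polynomial; it exhibits, for every root `z` of the second factor, a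
non-constant colouring of the edges of the diagram by complex numbers that satisfies the relations
of the Alexander matrix at `t = z`.
-/

open Polynomial

namespace Pool.Agent.Lib.MP_644796_gt

/-! ## Auxiliary lemmas -/

section Aux

/-- Two points have the same image in the set of orbits of `f`. -/
def SameOrbit {H : Type} (f : H → H) (a b : H) : Prop :=
  Quot.mk (fun h k => f h = k) a = Quot.mk (fun h k => f h = k) b

theorem SameOrbit.trans {H : Type} {f : H → H} {a b c : H} (h : SameOrbit f a b)
    (h' : SameOrbit f b c) : SameOrbit f a c := Eq.trans h h'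

theorem SameOrbit.symm {H : Type} {f : H → H} {a b : H} (h : SameOrbit f a b) :
    SameOrbit f b a := Eq.symm h

theorem SameOrbit.refl {H : Type} (f : H → H) (a : H) : SameOrbit f a a := Eq.refl _

theorem sameOrbit_of_eq {H : Type} {f : H → H} {a b : H} (h : f a = b) : SameOrbit f a b :=
  Quot.sound h

/-- Counting orbits by means of a labelling. -/
theorem card_orbits {H F : Type} [Fintype F] (f : H → H) (lab : H → F) (rep : F → H)
    (h1 : ∀ h, lab (f h) = lab h) (h2 : ∀ x, lab (rep x) = x)
    (h3 : ∀ h, SameOrbit f h (rep (lab h))) :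
    Nat.card (Quot fun h k => f h = k) = Fintype.card F := by
  rw [← Nat.card_eq_fintype_card]
  refine Nat.card_congr
    { toFun := Quot.lift lab (fun a b h => by rw [← h, h1])
      invFun := fun x => Quot.mk _ (rep x)
      left_inv := ?_
      right_inv := ?_ }
  · intro q
    induction q using Quot.ind with
    | _ a => exact (h3 a).symm
  · intro x
    exact h2 x

theorem sameCycle_of_eq {H : Type} {f : Equiv.Perm H} {a b : H} (h : f a = b) : f.SameCycle a b :=
  ⟨1, by simpa using h⟩

end Aux

/-! ## Zeros of the Alexander polynomial from colourings -/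

namespace KnotDiagram

/-- A non-constant colouring of the edges by complex numbers which satisfies the relations of the
Alexander matrix at `t = z` shows that `z` is a zero of the Alexander polynomial. -/
theorem aeval_alexander_of_colouring (D : KnotDiagram) (z : ℂ) (w : D.V × Bool → ℂ)
    (hw : ∀ p, ∃ q, w q ≠ w p)
    (h1 : ∀ v, w (D.next.symm (v, true)) = w (v, true))
    (h2 : ∀ v, D.positive v = true →
      (1 - z) * w (v, true) + z * w (D.next.symm (v, false)) = w (v, false))
    (h3 : ∀ v, D.positive v = false →
      (1 - z) * w (v, true) + z * w (v, false) = w (D.next.symm (v, false))) :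
    ∀ p₀, aeval z (D.alexander p₀) = 0 := by
  intro p₀
  have hrow : ∀ (c : ℂ) (p : D.V × Bool),
      ∑ q, aeval z (D.alexanderMatrix p q) * (w q - c) = 0 := by
    rintro c ⟨v, b⟩
    cases b with
    | true =>
      have : ∀ q, aeval z (D.alexanderMatrix (v, true) q) * (w q - c) =
          (if q = D.next.symm (v, true) then (w q - c) else 0) -
            (if q = (v, true) then (w q - c) else 0) := by
        intro q
        simp only [alexanderMatrix, Matrix.of_apply, Pi.sub_apply, Pi.single_apply, if_true]
        split_ifs <;> simp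
      rw [Finset.sum_congr rfl (fun q _ => this q), Finset.sum_sub_distrib, Finset.sum_ite_eq',
        Finset.sum_ite_eq']
      simp [h1 v]
    | false =>
      cases hp : D.positive v with
      | true =>
        have : ∀ q, aeval z (D.alexanderMatrix (v, false) q) * (w q - c) =
            (1 - z) * (if q = (v, true) then (w q - c) else 0) +
              z * (if q = D.next.symm (v, false) then (w q - c) else 0) -
              (if q = (v, false) then (w q - c) else 0) := by
          intro q
          simp only [alexanderMatrix, Matrix.of_apply, hp, Bool.false_eq_true, if_false, if_true,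
            Pi.sub_apply, Pi.add_apply, Pi.smul_apply, Pi.single_apply, smul_eq_mul]
          split_ifs <;> simp <;> ring
        rw [Finset.sum_congr rfl (fun q _ => this q), Finset.sum_sub_distrib,
          Finset.sum_add_distrib, ← Finset.mul_sum, ← Finset.mul_sum, Finset.sum_ite_eq',
          Finset.sum_ite_eq', Finset.sum_ite_eq']
        simp only [Finset.mem_univ, if_true]
        linear_combination h2 v hp
      | false =>
        have : ∀ q, aeval z (D.alexanderMatrix (v, false) q) * (w q - c) =
            (1 - z) * (if q = (v, true) then (w q - c) else 0) +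
              z * (if q = (v, false) then (w q - c) else 0) -
              (if q = D.next.symm (v, false) then (w q - c) else 0) := by
          intro q
          simp only [alexanderMatrix, Matrix.of_apply, hp, Bool.false_eq_true, if_false,
            Pi.sub_apply, Pi.add_apply, Pi.smul_apply, Pi.single_apply, smul_eq_mul]
          split_ifs <;> simp <;> ring
        rw [Finset.sum_congr rfl (fun q _ => this q), Finset.sum_sub_distrib,
          Finset.sum_add_distrib, ← Finset.mul_sum, ← Finset.mul_sum, Finset.sum_ite_eq',
          Finset.sum_ite_eq', Finset.sum_ite_eq']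
        simp only [Finset.mem_univ, if_true]
        linear_combination h3 v hp
  have hdet : aeval z (D.alexander p₀) = ((aeval z : ℤ[X] →ₐ[ℤ] ℂ).mapMatrix
      (D.alexanderMatrix.submatrix (Subtype.val : {p // p ≠ p₀} → D.V × Bool)
        (Subtype.val : {p // p ≠ p₀} → D.V × Bool))).det := by
    rw [alexander, AlgHom.map_det]
  rw [hdet, ← Matrix.exists_mulVec_eq_zero_iff]
  refine ⟨fun q => w q.1 - w p₀, ?_, ?_⟩
  · obtain ⟨q, hq⟩ := hw p₀
    have hqp : q ≠ p₀ := fun h => hq (by rw [h])
    intro h
    have := congrFun h ⟨q, hqp⟩
    simp only [Pi.zero_apply] at this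
    exact hq (sub_eq_zero.mp this)
  · funext p
    simp only [Matrix.mulVec, dotProduct, AlgHom.mapMatrix_apply, Matrix.map_apply,
      Matrix.submatrix_apply, Pi.zero_apply]
    have := hrow (w p₀) p.1
    rw [← Fintype.sum_subtype_add_sum_subtype (fun q => q ≠ p₀)] at this
    rw [← this]
    have h0 : ∑ q : {x // ¬ x ≠ p₀}, aeval z (D.alexanderMatrix p.1 q.1) * (w q.1 - w p₀) = 0 := by
      apply Finset.sum_eq_zero
      rintro ⟨q, hq⟩ _
      simp only [not_not] at hq
      subst hq
      simp
    rw [h0, add_zero]

end KnotDiagram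

/-! ## A check of the definition

The Alexander polynomial of a knot takes the value `1` or `-1` at `t = 1`; in particular the
polynomial `alexander` is never zero. This is not used in the proof of the main result. -/

namespace KnotDiagram

/-- If every entry of the row of a passage `p` of the Alexander matrix is evaluated at `1` and the
row is paired with a vector, the result is, up to sign, the difference of two values. -/
theorem row_at_one (D : KnotDiagram) {R : Type} [CommRing R] (w : D.V × Bool → R)
    (p : D.V × Bool) :
    ∑ q, (((D.alexanderMatrix p q).eval 1 : ℤ) : R) * w q = w (D.next.symm p) - w p ∨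
      ∑ q, (((D.alexanderMatrix p q).eval 1 : ℤ) : R) * w q = w p - w (D.next.symm p) := by
  obtain ⟨v, b⟩ := p
  have key : ∀ a b : D.V × Bool, ∑ q, ((((Pi.single a 1 - Pi.single b 1 : D.V × Bool → ℤ[X]) q).eval 1
      : ℤ) : R) * w q = w a - w b := by
    intro a b
    have : ∀ q, ((((Pi.single a 1 - Pi.single b 1 : D.V × Bool → ℤ[X]) q).eval 1 : ℤ) : R) * w q =
        (if q = a then w q else 0) - (if q = b then w q else 0) := by
      intro q
      simp only [Pi.sub_apply, Pi.single_apply]
      split_ifs <;> simp
    rw [Finset.sum_congr rfl (fun q _ => this q), Finset.sum_sub_distrib, Finset.sum_ite_eq',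
      Finset.sum_ite_eq']
    simp
  cases b with
  | true =>
    left
    rw [← key]
    simp [alexanderMatrix]
  | false =>
    cases hp : D.positive v with
    | true =>
      left
      rw [← key]
      refine Finset.sum_congr rfl fun q _ => ?_
      congr 2
      simp [alexanderMatrix, hp]
    | false =>
      right
      rw [← key]
      refine Finset.sum_congr rfl fun q _ => ?_
      congr 2
      simp [alexanderMatrix, hp]

theorem eval_one_ne_zero (D : KnotDiagram) (p₀ : D.V × Bool) (k : Type) [Field k] :
    (((D.alexander p₀).eval 1 : ℤ) : k) ≠ 0 := by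
  intro h0
  have hdet : (((D.alexander p₀).eval 1 : ℤ) : k) =
      (((Int.castRingHom k).comp (evalRingHom (1 : ℤ))).mapMatrix
      (D.alexanderMatrix.submatrix (Subtype.val : {p // p ≠ p₀} → D.V × Bool)
        (Subtype.val : {p // p ≠ p₀} → D.V × Bool))).det := by
    rw [← RingHom.map_det]
    rfl
  rw [hdet, ← Matrix.exists_mulVec_eq_zero_iff] at h0
  obtain ⟨w, hw0, hw⟩ := h0
  let u : D.V × Bool → k := fun q => if h : q ≠ p₀ then w ⟨q, h⟩ else 0
  have hu0 : u p₀ = 0 := by simp [u]
  have hu : ∀ p, p ≠ p₀ → u (D.next.symm p) = u p := by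
    intro p hp
    have h1 := congrFun hw ⟨p, hp⟩
    simp only [Matrix.mulVec, dotProduct, RingHom.mapMatrix_apply, Matrix.map_apply,
      Matrix.submatrix_apply, Pi.zero_apply] at h1
    have h2 : ∑ q, (((D.alexanderMatrix p q).eval 1 : ℤ) : k) * u q = 0 := by
      rw [← Fintype.sum_subtype_add_sum_subtype (fun q => q ≠ p₀)]
      have e1 : ∑ q : {x // ¬ x ≠ p₀}, (((D.alexanderMatrix p q.1).eval 1 : ℤ) : k) * u q.1 = 0 := by
        apply Finset.sum_eq_zero
        rintro ⟨q, hq⟩ _
        simp only [not_not] at hq
        subst hq
        simp [hu0]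
      rw [e1, add_zero, ← h1]
      refine Finset.sum_congr rfl ?_
      rintro ⟨q, hq⟩ _
      simp [u, hq]
    rcases D.row_at_one u p with h | h
    · rw [h] at h2
      exact sub_eq_zero.mp h2
    · rw [h] at h2
      exact (sub_eq_zero.mp h2).symm
  have hnat : ∀ (m : ℕ) (p : D.V × Bool), (D.next ^ m) p₀ = p → u p = 0 := by
    intro m
    induction m with
    | zero =>
      intro p hp
      rw [← hp]
      simpa using hu0
    | succ m ih =>
      intro p hp
      by_cases hpp : p = p₀
      · rw [hpp]; exact hu0
      · rw [← hu p hpp]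
        apply ih
        rw [← hp, pow_succ', Equiv.Perm.mul_apply, Equiv.symm_apply_apply]
  apply hw0
  funext q
  obtain ⟨m, hm⟩ := (D.one_component p₀ q.1).exists_nat_pow_eq
  have := hnat m q.1 hm
  simpa [u, q.2] using this

/-- The Alexander polynomial takes the value `1` or `-1` at `t = 1`. -/
theorem natAbs_eval_one (D : KnotDiagram) (p₀ : D.V × Bool) :
    ((D.alexander p₀).eval 1).natAbs = 1 := by
  by_contra h
  obtain ⟨q, hq, hd⟩ := Nat.exists_prime_and_dvd h
  have := Fact.mk hq
  apply D.eval_one_ne_zero p₀ (ZMod q)
  rw [ZMod.intCast_zmod_eq_zero_iff_dvd]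
  exact Int.natCast_dvd.mpr hd

theorem alexander_ne_zero (D : KnotDiagram) (p₀ : D.V × Bool) : D.alexander p₀ ≠ 0 := by
  intro h
  have := D.natAbs_eval_one p₀
  rw [h] at this
  simp at this

end KnotDiagram

/-! ## The family of diagrams

The `n`-th diagram consists of `n + 1` tangles placed in a row and closed up: `n` of them are
rational tangles of slope `2/3` and one, in position `L`, has slope `3/2`. Each tangle
has three crossings, so the crossings are the pairs of `Fin (n + 1) × Fin 3`. It is a diagram of the
Montesinos knot `M(1; 2/3, ..., 2/3, 1/2)`. -/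

section Family

variable {n : ℕ}

/-- The passage that follows a given passage. -/
def nextFun (L : Fin (n + 1)) : (Fin (n + 1) × Fin 3) × Bool → (Fin (n + 1) × Fin 3) × Bool
  | ((i, 0), true) => if i = L then ((i, 1), false) else ((i, 2), false)
  | ((i, 1), true) => if i = L then ((i, 2), false) else ((i, 0), false)
  | ((i, 2), true) => if i = L then ((i, 0), false) else ((i, 1), false)
  | ((i, 0), false) => if i = L then ((i, 1), true) else ((i + 1, 0), true)
  | ((i, 1), false) => ((i - 1, 2), true)
  | ((i, 2), false) => if i = L then ((i + 1, 0), true) else ((i, 1), true)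

/-- The passage that precedes a given passage. -/
def prevFun (L : Fin (n + 1)) : (Fin (n + 1) × Fin 3) × Bool → (Fin (n + 1) × Fin 3) × Bool
  | ((i, 0), true) => if i - 1 = L then ((i - 1, 2), false) else ((i - 1, 0), false)
  | ((i, 1), true) => if i = L then ((i, 0), false) else ((i, 2), false)
  | ((i, 2), true) => ((i + 1, 1), false)
  | ((i, 0), false) => if i = L then ((i, 2), true) else ((i, 1), true)
  | ((i, 1), false) => if i = L then ((i, 0), true) else ((i, 2), true)
  | ((i, 2), false) => if i = L then ((i, 1), true) else ((i, 0), true)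

theorem prev_next (L : Fin (n + 1)) (p : (Fin (n + 1) × Fin 3) × Bool) :
    prevFun L (nextFun L p) = p := by
  obtain ⟨⟨i, c⟩, b⟩ := p
  by_cases h : i = L <;> fin_cases c <;> cases b <;> simp [nextFun, prevFun, h]

theorem next_prev (L : Fin (n + 1)) (p : (Fin (n + 1) × Fin 3) × Bool) :
    nextFun L (prevFun L p) = p := by
  obtain ⟨⟨i, c⟩, b⟩ := p
  have h0 : nextFun L (prevFun L ((i, 0), true)) = ((i, 0), true) := by
    by_cases h' : i - 1 = L
    · rw [prevFun, if_pos h', nextFun, if_pos h', sub_add_cancel]
    · rw [prevFun, if_neg h', nextFun, if_neg h', sub_add_cancel]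
  by_cases h : i = L
  · fin_cases c <;> cases b
    · simp [nextFun, prevFun, h]
    · exact h0
    all_goals simp [nextFun, prevFun, h]
  · fin_cases c <;> cases b
    · simp [nextFun, prevFun, h]
    · exact h0
    all_goals simp [nextFun, prevFun, h]

/-- The successor permutation of the `n`-th diagram. -/
def nextPerm (L : Fin (n + 1)) : Equiv.Perm ((Fin (n + 1) × Fin 3) × Bool) where
  toFun := nextFun L
  invFun := prevFun L
  left_inv := prev_next L
  right_inv := next_prev L

/-- The crossings of the tangle `L` are negative, all the others are positive. -/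
def pos (L : Fin (n + 1)) (v : Fin (n + 1) × Fin 3) : Bool := decide (v.1 ≠ L)

theorem nextPerm_apply (L : Fin (n + 1)) (p) : nextPerm L p = nextFun L p := rfl
theorem nextPerm_symm_apply (L : Fin (n + 1)) (p) : (nextPerm L).symm p = prevFun L p := rfl

theorem alternating (L : Fin (n + 1)) (p) : (nextPerm L p).2 = !p.2 := by
  obtain ⟨⟨i, c⟩, b⟩ := p
  by_cases h : i = L <;> fin_cases c <;> cases b <;> simp [nextPerm_apply, nextFun, h]

theorem top_step (L : Fin (n + 1)) (i : Fin (n + 1)) (h : i ≠ L) :
    (nextPerm L).SameCycle ((i, 0), true) ((i + 1, 0), true) := by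
  refine (sameCycle_of_eq (b := ((i, 2), false)) (by simp [nextPerm_apply, nextFun, h])).trans ?_
  refine (sameCycle_of_eq (b := ((i, 1), true)) (by simp [nextPerm_apply, nextFun, h])).trans ?_
  refine (sameCycle_of_eq (b := ((i, 0), false)) (by simp [nextPerm_apply, nextFun, h])).trans ?_
  exact sameCycle_of_eq (by simp [nextPerm_apply, nextFun, h])

theorem bot_step (L : Fin (n + 1)) (i : Fin (n + 1)) (h : i ≠ L) :
    (nextPerm L).SameCycle ((i, 2), true) ((i - 1, 2), true) := by
  refine (sameCycle_of_eq (b := ((i, 1), false)) (by simp [nextPerm_apply, nextFun, h])).trans ?_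
  exact sameCycle_of_eq (by simp [nextPerm_apply, nextFun])

theorem last_step (L : Fin (n + 1)) :
    (nextPerm L).SameCycle ((L, 0), true) ((L - 1, 2), true) := by
  refine (sameCycle_of_eq (b := ((L, 1), false)) (by simp [nextPerm_apply, nextFun])).trans ?_
  exact sameCycle_of_eq (by simp [nextPerm_apply, nextFun])

theorem last_step' (L : Fin (n + 1)) :
    (nextPerm L).SameCycle ((L, 2), true) ((L + 1, 0), true) := by
  refine (sameCycle_of_eq (b := ((L, 0), false)) (by simp [nextPerm_apply, nextFun])).trans ?_
  refine (sameCycle_of_eq (b := ((L, 1), true)) (by simp [nextPerm_apply, nextFun])).trans ?_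
  refine (sameCycle_of_eq (b := ((L, 2), false)) (by simp [nextPerm_apply, nextFun])).trans ?_
  exact sameCycle_of_eq (by simp [nextPerm_apply, nextFun])

theorem top_all (i : Fin (n + 1)) :
    (nextPerm (Fin.last n)).SameCycle ((i, 0), true) ((0, 0), true) := by
  induction i using Fin.induction with
  | zero => exact Equiv.Perm.SameCycle.refl _ _
  | succ i ih =>
    refine Equiv.Perm.SameCycle.trans ?_ ih
    have := top_step (Fin.last n) i.castSucc (Fin.castSucc_lt_last i).ne
    rw [Fin.coeSucc_eq_succ] at this
    exact this.symm

theorem bot_all (i : Fin (n + 1)) :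
    (nextPerm (Fin.last n)).SameCycle ((i, 2), true) ((0, 0), true) := by
  have h0 : ((0 : Fin (n + 1)) - 1) = Fin.last n := by
    rw [zero_sub, eq_comm, ← add_eq_zero_iff_eq_neg, Fin.last_add_one]
  have hL : (nextPerm (Fin.last n)).SameCycle ((Fin.last n, 2), true) ((0, 0), true) := by
    have := last_step' (Fin.last n)
    rwa [Fin.last_add_one] at this
  have h1 : (nextPerm (Fin.last n)).SameCycle (((0 : Fin (n + 1)), 2), true) ((0, 0), true) := by
    by_cases hn : (0 : Fin (n + 1)) = Fin.last n
    · rw [← hn] at hL
      rwa [hn] at hL ⊢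
    · have := bot_step (Fin.last n) 0 hn
      rw [h0] at this
      exact this.trans hL
  induction i using Fin.induction with
  | zero => exact h1
  | succ i ih =>
    by_cases hi : i.succ = Fin.last n
    · rw [hi]; exact hL
    · have := bot_step (Fin.last n) i.succ hi
      rw [← Fin.coeSucc_eq_succ, add_sub_cancel_right] at this
      rw [← Fin.coeSucc_eq_succ]
      exact this.trans ih

theorem all_same (p : (Fin (n + 1) × Fin 3) × Bool) :
    (nextPerm (Fin.last n)).SameCycle p ((0, 0), true) := by
  obtain ⟨⟨i, c⟩, b⟩ := p
  have hT := top_all i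
  have hB := bot_all i
  by_cases h : i = Fin.last n
  · subst h
    have e1 : (nextPerm (Fin.last n)).SameCycle ((Fin.last n, 0), true) ((Fin.last n, 1), false) :=
      sameCycle_of_eq (by simp [nextPerm_apply, nextFun])
    have e2 : (nextPerm (Fin.last n)).SameCycle ((Fin.last n, 2), true) ((Fin.last n, 0), false) :=
      sameCycle_of_eq (by simp [nextPerm_apply, nextFun])
    have e3 : (nextPerm (Fin.last n)).SameCycle ((Fin.last n, 0), false) ((Fin.last n, 1), true) :=
      sameCycle_of_eq (by simp [nextPerm_apply, nextFun])
    have e4 : (nextPerm (Fin.last n)).SameCycle ((Fin.last n, 1), true) ((Fin.last n, 2), false) :=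
      sameCycle_of_eq (by simp [nextPerm_apply, nextFun])
    fin_cases c <;> cases b
    · exact e2.symm.trans hB
    · exact hT
    · exact e1.symm.trans hT
    · exact (e2.trans e3).symm.trans hB
    · exact ((e2.trans e3).trans e4).symm.trans hB
    · exact hB
  · have e1 : (nextPerm (Fin.last n)).SameCycle ((i, 0), true) ((i, 2), false) :=
      sameCycle_of_eq (by simp [nextPerm_apply, nextFun, h])
    have e2 : (nextPerm (Fin.last n)).SameCycle ((i, 2), false) ((i, 1), true) :=
      sameCycle_of_eq (by simp [nextPerm_apply, nextFun, h])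
    have e3 : (nextPerm (Fin.last n)).SameCycle ((i, 1), true) ((i, 0), false) :=
      sameCycle_of_eq (by simp [nextPerm_apply, nextFun, h])
    have e4 : (nextPerm (Fin.last n)).SameCycle ((i, 2), true) ((i, 1), false) :=
      sameCycle_of_eq (by simp [nextPerm_apply, nextFun, h])
    fin_cases c <;> cases b
    · exact ((e1.trans e2).trans e3).symm.trans hT
    · exact hT
    · exact e4.symm.trans hB
    · exact (e1.trans e2).symm.trans hT
    · exact e1.symm.trans hT
    · exact hB

/-- The face permutation of the diagram. -/
def facePerm (L : Fin (n + 1)) (h : ((Fin (n + 1) × Fin 3) × Bool) × Bool) :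
    ((Fin (n + 1) × Fin 3) × Bool) × Bool :=
  rotate (pos L) (otherEnd (nextPerm L) h)

theorem facePerm_true (L : Fin (n + 1)) (p) : facePerm L (p, true) =
    (((nextFun L p).1, !(nextFun L p).2),
      if (nextFun L p).2 = pos L (nextFun L p).1 then false else true) := rfl

theorem facePerm_false (L : Fin (n + 1)) (p) : facePerm L (p, false) =
    (((prevFun L p).1, !(prevFun L p).2),
      if (prevFun L p).2 = pos L (prevFun L p).1 then true else false) := rfl

/-- The face on a given side of a half-edge. -/
def lab (L : Fin (n + 1)) :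
    ((Fin (n + 1) × Fin 3) × Bool) × Bool → (Fin (n + 1) × Fin 3) ⊕ Bool
  | (((i, 0), true), true) => if i = L then Sum.inl (i, 1) else Sum.inl (i, 0)
  | (((i, 1), true), true) => if i = L then Sum.inr false else Sum.inl (i, 0)
  | (((i, 2), true), true) => if i = L then Sum.inr true else Sum.inl (i, 0)
  | (((_, 0), true), false) => Sum.inr true
  | (((i, 1), true), false) => if i = L then Sum.inl (i, 1) else Sum.inr false
  | (((_, 2), true), false) => Sum.inr false
  | (((i, 0), false), true) => if i = L then Sum.inl (i - 1, 2) else Sum.inl (i, 2)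
  | (((i, 1), false), true) => Sum.inl (i - 1, 2)
  | (((i, 2), false), true) => if i = L then Sum.inl (i, 2) else Sum.inl (i, 1)
  | (((i, 0), false), false) => if i = L then Sum.inl (i, 0) else Sum.inl (i - 1, 2)
  | (((i, 1), false), false) => if i = L then Sum.inl (i, 0) else Sum.inl (i, 1)
  | (((i, 2), false), false) => if i = L then Sum.inl (i, 0) else Sum.inl (i, 2)

/-- A half-edge on the boundary of a given face. -/
def rep (L : Fin (n + 1)) :
    (Fin (n + 1) × Fin 3) ⊕ Bool → ((Fin (n + 1) × Fin 3) × Bool) × Bool
  | Sum.inl (i, 0) => if i = L then (((i, 0), false), false) else (((i, 0), true), true)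
  | Sum.inl (i, 1) => if i = L then (((i, 0), true), true) else (((i, 1), false), false)
  | Sum.inl (i, 2) => if i = L then (((i, 2), false), true) else (((i, 0), false), true)
  | Sum.inr true => (((0, 0), true), false)
  | Sum.inr false => (((0, 2), true), false)

theorem lab_rep (L : Fin (n + 1)) (x) : lab L (rep L x) = x := by
  rcases x with ⟨i, c⟩ | b
  · by_cases h : i = L <;> fin_cases c <;> simp [lab, rep, h]
  · cases b <;> simp [lab, rep]

theorem lab_facePerm (hn : n ≠ 0) (L : Fin (n + 1)) (x) : lab L (facePerm L x) = lab L x := by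
  obtain ⟨⟨⟨i, c⟩, b⟩, d⟩ := x
  by_cases h : i = L
  · fin_cases c <;> cases b <;> cases d <;>
      simp [facePerm_true, facePerm_false, nextFun, prevFun, pos, lab, h, hn]
  · by_cases h' : i - 1 = L <;> by_cases h'' : i + 1 = L <;>
      fin_cases c <;> cases b <;> cases d <;>
      simp [facePerm_true, facePerm_false, nextFun, prevFun, pos, lab, h, h', h'']
    all_goals rw [← h'', add_sub_cancel_right]

theorem top_chain (hn : n ≠ 0) (L i : Fin (n + 1)) :
    SameOrbit (facePerm L) (((i, 0), true), false) (((i - 1, 0), true), false) := by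
  by_cases h' : i - 1 = L
  · have hi : i ≠ L := by
      intro h
      rw [h] at h'
      simp [hn] at h'
    rw [h']
    refine (sameOrbit_of_eq (b := (((L, 2), true), true)) ?_).trans (sameOrbit_of_eq ?_)
    · simp [facePerm_false, prevFun, pos, h']
    · simp [facePerm_true, nextFun, pos]
  · apply sameOrbit_of_eq
    simp [facePerm_false, prevFun, pos, h']

theorem bot_chain (hn : n ≠ 0) (L i : Fin (n + 1)) :
    SameOrbit (facePerm L) (((i, 2), true), false) (((i + 1, 2), true), false) := by
  by_cases h' : i + 1 = L
  · have hi : i ≠ L := by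
      intro h
      rw [h] at h'
      simp [hn] at h'
    rw [h']
    refine (sameOrbit_of_eq (b := (((L, 1), true), true)) ?_).trans (sameOrbit_of_eq ?_)
    · simp [facePerm_false, prevFun, pos, h']
    · simp [facePerm_true, nextFun, pos]
  · refine (sameOrbit_of_eq (b := (((i + 1, 1), true), false)) ?_).trans (sameOrbit_of_eq ?_)
    · simp [facePerm_false, prevFun, pos, h']
    · simp [facePerm_false, prevFun, pos, h']

theorem top_face (hn : n ≠ 0) (L i : Fin (n + 1)) :
    SameOrbit (facePerm L) (((i, 0), true), false) (((0, 0), true), false) := by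
  induction i using Fin.induction with
  | zero => exact SameOrbit.refl _ _
  | succ i ih =>
    refine SameOrbit.trans ?_ ih
    have := top_chain hn L i.succ
    rw [← Fin.coeSucc_eq_succ, add_sub_cancel_right] at this
    rw [← Fin.coeSucc_eq_succ]
    exact this

theorem bot_face (hn : n ≠ 0) (L i : Fin (n + 1)) :
    SameOrbit (facePerm L) (((i, 2), true), false) (((0, 2), true), false) := by
  induction i using Fin.induction with
  | zero => exact SameOrbit.refl _ _
  | succ i ih =>
    refine SameOrbit.trans ?_ ih
    have := bot_chain hn L i.castSucc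
    rw [Fin.coeSucc_eq_succ] at this
    exact this.symm

theorem same_rep (hn : n ≠ 0) (L : Fin (n + 1)) (x) :
    SameOrbit (facePerm L) x (rep L (lab L x)) := by
  obtain ⟨⟨⟨i, c⟩, b⟩, d⟩ := x
  have hT := top_face hn L i
  have hB := bot_face hn L i
  by_cases h : i = L
  · subst h
    have hi : i - 1 ≠ i := by simp [hn]
    have e1 : SameOrbit (facePerm i) (((i, 2), false), false) (((i, 1), false), false) :=
      sameOrbit_of_eq (by simp [facePerm_false, prevFun, pos])
    have e2 : SameOrbit (facePerm i) (((i, 1), false), false) (((i, 0), false), false) :=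
      sameOrbit_of_eq (by simp [facePerm_false, prevFun, pos])
    have e3 : SameOrbit (facePerm i) (((i, 1), true), false) (((i, 0), true), true) :=
      sameOrbit_of_eq (by simp [facePerm_false, prevFun, pos])
    have e4 : SameOrbit (facePerm i) (((i - 1, 0), false), true) (((i, 0), false), true) :=
      sameOrbit_of_eq (by simp [facePerm_true, nextFun, pos, hn])
    have e5 : SameOrbit (facePerm i) (((i, 0), false), true) (((i, 1), false), true) :=
      sameOrbit_of_eq (by simp [facePerm_true, nextFun, pos])
    have e6 : SameOrbit (facePerm i) (((i, 2), true), true) (((i, 0), true), false) :=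
      sameOrbit_of_eq (by simp [facePerm_true, nextFun, pos])
    have e7 : SameOrbit (facePerm i) (((i, 1), true), true) (((i, 2), true), false) :=
      sameOrbit_of_eq (by simp [facePerm_true, nextFun, pos])
    fin_cases c <;> cases b <;> cases d
    · simp [lab, rep, SameOrbit.refl]
    · simpa [lab, rep, hn] using e4.symm
    · simpa [lab, rep] using hT
    · simp [lab, rep, SameOrbit.refl]
    · simpa [lab, rep] using e2
    · simpa [lab, rep, hn] using (e4.trans e5).symm
    · simpa [lab, rep] using e3
    · simpa [lab, rep] using e7.trans hB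
    · simpa [lab, rep] using e1.trans e2
    · simp [lab, rep, SameOrbit.refl]
    · simpa [lab, rep] using hB
    · simpa [lab, rep] using e6.trans hT
  · have e1 : SameOrbit (facePerm L) (((i, 2), true), true) (((i, 1), true), true) :=
      sameOrbit_of_eq (by simp [facePerm_true, nextFun, pos, h])
    have e2 : SameOrbit (facePerm L) (((i, 1), true), true) (((i, 0), true), true) :=
      sameOrbit_of_eq (by simp [facePerm_true, nextFun, pos, h])
    have e3 : SameOrbit (facePerm L) (((i, 2), false), true) (((i, 1), false), false) :=
      sameOrbit_of_eq (by simp [facePerm_true, nextFun, pos, h])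
    have e4 : SameOrbit (facePerm L) (((i, 2), false), false) (((i, 0), false), true) :=
      sameOrbit_of_eq (by simp [facePerm_false, prevFun, pos, h])
    have e5 : SameOrbit (facePerm L) (((i, 0), false), false) (((i, 1), false), true) :=
      sameOrbit_of_eq (by simp [facePerm_false, prevFun, pos, h])
    have e6 : SameOrbit (facePerm L) (((i, 1), true), false) (((i, 2), true), false) :=
      sameOrbit_of_eq (by simp [facePerm_false, prevFun, pos, h])
    have e7 : SameOrbit (facePerm L) (rep L (Sum.inl (i - 1, 2))) (((i, 0), false), false) := by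
      by_cases h' : i - 1 = L
      · apply sameOrbit_of_eq
        have h'' : i = L + 1 := by rw [← h', sub_add_cancel]
        subst h''
        simp [rep, facePerm_true, nextFun, pos, hn]
      · apply sameOrbit_of_eq
        simp [rep, facePerm_true, nextFun, pos, h, h']
    fin_cases c <;> cases b <;> cases d
    · simpa [lab, h] using e7.symm
    · simp [lab, rep, h, SameOrbit.refl]
    · simpa [lab, rep] using hT
    · simp [lab, rep, h, SameOrbit.refl]
    · simp [lab, rep, h, SameOrbit.refl]
    · simpa [lab, h] using (e7.trans e5).symm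
    · simpa [lab, rep, h] using e6.trans hB
    · simpa [lab, rep, h] using e2
    · simpa [lab, rep, h] using e4
    · simpa [lab, rep, h] using e3
    · simpa [lab, rep, h] using hB
    · simpa [lab, rep, h] using e1.trans e2

/-- The `n`-th diagram of the family. -/
def diagram (n : ℕ) (hn : n ≠ 0) : KnotDiagram where
  V := Fin (n + 1) × Fin 3
  positive := pos (Fin.last n)
  next := nextPerm (Fin.last n)
  one_component p q := (all_same p).trans (all_same q).symm
  planar := by
    have := card_orbits (facePerm (Fin.last n)) (lab (Fin.last n)) (rep (Fin.last n))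
      (lab_facePerm hn _) (lab_rep _) (same_rep hn _)
    rw [show (fun h k => rotate (pos (Fin.last n)) (otherEnd (nextPerm (Fin.last n)) h) = k) =
      (fun h k => facePerm (Fin.last n) h = k) from rfl, this]
    simp

/-- Colours of the left ends of the tangles. -/
noncomputable def A (m : ℂ) (i : Fin (n + 1)) : ℂ := (i.val : ℂ) * m

/-- A colouring of the edges of the diagram. -/
noncomputable def colour (L : Fin (n + 1)) (z m : ℂ) : (Fin (n + 1) × Fin 3) × Bool → ℂ
  | ((i, 0), true) => A m i
  | ((i, 1), true) => if i = L then A m i + z / (1 - z) else A m i + m / z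
  | ((i, 2), true) => A m (i + 1) - 1
  | ((i, 0), false) => if i = L then A m i + z / (1 - z) else A m (i + 1)
  | ((i, 1), false) => A m i - 1
  | ((i, 2), false) => if i = L then A m (i + 1) else A m i + m / z

theorem A_succ (m : ℂ) (i : Fin (n + 1)) (h : i ≠ Fin.last n) : A m (i + 1) = A m i + m := by
  have : (i + 1).val = i.val + 1 := Fin.val_add_one_of_lt (Fin.lt_last_iff_ne_last.mpr h)
  simp [A, this]
  ring

theorem A_last (m : ℂ) : A m (Fin.last n + 1) = 0 := by
  simp [A, Fin.last_add_one]

theorem diagram_zero (hn : n ≠ 0) (z m : ℂ) (h0 : z ≠ 0) (h1 : 1 - z ≠ 0)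
    (hm : m * (z ^ 2 - z + 1) = z * (z - 1)) (hnm : (n : ℂ) * m * (z - 1) = z ^ 2 - z + 1) :
    ∀ p₀, aeval z ((diagram n hn).alexander p₀) = 0 := by
  refine KnotDiagram.aeval_alexander_of_colouring (diagram n hn) z
    (colour (Fin.last n) z m) ?_ ?_ ?_ ?_
  · intro p
    by_contra hcon
    have hcon' : ∀ q, colour (Fin.last n) z m q = colour (Fin.last n) z m p := by
      intro q
      by_contra hq
      exact hcon ⟨q, hq⟩
    have e1 := hcon' ((0, 1), false)
    have e2 := hcon' ((0, 0), true)
    rw [← e2] at e1
    simp [colour] at e1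
  · rintro ⟨i, c⟩
    change colour (Fin.last n) z m (prevFun (Fin.last n) ((i, c), true)) =
      colour (Fin.last n) z m ((i, c), true)
    fin_cases c
    · change colour (Fin.last n) z m (if i - 1 = Fin.last n then ((i - 1, 2), false)
        else ((i - 1, 0), false)) = A m i
      by_cases h : i - 1 = Fin.last n
      · rw [if_pos h]
        change (if i - 1 = Fin.last n then A m (i - 1 + 1) else A m (i - 1) + m / z) = A m i
        rw [if_pos h, sub_add_cancel]
      · rw [if_neg h]
        change (if i - 1 = Fin.last n then A m (i - 1) + z / (1 - z) else A m (i - 1 + 1)) = A m i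
        rw [if_neg h, sub_add_cancel]
    · by_cases h : i = Fin.last n <;> simp [prevFun, colour, h]
    · simp [prevFun, colour]
  · rintro ⟨i, c⟩ hp
    have hi : i ≠ Fin.last n := by simpa [diagram, pos] using hp
    change (1 - z) * colour (Fin.last n) z m ((i, c), true) +
      z * colour (Fin.last n) z m (prevFun (Fin.last n) ((i, c), false)) =
      colour (Fin.last n) z m ((i, c), false)
    have hA := A_succ m i hi
    fin_cases c
    · simp only [prevFun, colour, hi, if_false, Fin.isValue]
      rw [hA]
      field_simp
      ring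
    · simp only [prevFun, colour, hi, if_false, Fin.isValue]
      rw [hA]
      field_simp
      linear_combination hm
    · simp only [prevFun, colour, hi, if_false, Fin.isValue]
      rw [hA]
      field_simp
      linear_combination -hm
  · rintro ⟨i, c⟩ hp
    have hi : i = Fin.last n := by simpa [diagram, pos] using hp
    subst hi
    change (1 - z) * colour (Fin.last n) z m ((Fin.last n, c), true) +
      z * colour (Fin.last n) z m ((Fin.last n, c), false) =
      colour (Fin.last n) z m (prevFun (Fin.last n) ((Fin.last n, c), false))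
    have hA := A_last (n := n) m
    have hL : A m (Fin.last n) = n * m := by simp [A]
    fin_cases c
    · simp only [prevFun, colour, if_true, Fin.isValue]
      rw [hA, hL]
      field_simp
      linear_combination -hnm
    · simp only [prevFun, colour, if_true, Fin.isValue]
      rw [hL]
      field_simp
      ring
    · simp only [prevFun, colour, if_true, Fin.isValue]
      rw [hA, hL]
      field_simp
      linear_combination hnm

end Family

/-- For every real `C` there is a number `n` of tangles and a real `x > C` which satisfies the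
equation of the zeros. -/
theorem exists_root (C : ℝ) : ∃ n : ℕ, n ≠ 0 ∧ ∃ x : ℝ, C < x ∧ 1 < x ∧
    (n : ℝ) * (x * (x - 1) ^ 2) = (x ^ 2 - x + 1) ^ 2 := by
  set c : ℝ := max C 2 with hc
  have hc2 : 2 ≤ c := le_max_right _ _
  have hcC : C ≤ c := le_max_left _ _
  obtain ⟨n, hn⟩ := exists_nat_gt ((c ^ 2 - c + 1) ^ 2)
  have hq1 : c ≤ c ^ 2 - c + 1 := by nlinarith [sq_nonneg (c - 1)]
  have hq2 : c ^ 2 - c + 1 ≤ (c ^ 2 - c + 1) ^ 2 := by nlinarith
  have hn1 : c < n := by linarith
  refine ⟨n, ?_, ?_⟩
  · rintro rfl
    simp at hn1
    linarith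
  · let g : ℝ → ℝ := fun x => (n : ℝ) * (x * (x - 1) ^ 2) - (x ^ 2 - x + 1) ^ 2
    have hg : ContinuousOn g (Set.Icc c n) := by fun_prop
    have hgc : 0 < g c := by
      have h1 : 1 ≤ c * (c - 1) ^ 2 := by nlinarith [sq_nonneg (c - 1)]
      have h2 : (n : ℝ) * 1 ≤ n * (c * (c - 1) ^ 2) :=
        mul_le_mul_of_nonneg_left h1 (Nat.cast_nonneg n)
      change 0 < (n : ℝ) * (c * (c - 1) ^ 2) - (c ^ 2 - c + 1) ^ 2
      linarith
    have hgn : g n < 0 := by
      change (n : ℝ) * (n * (n - 1) ^ 2) - ((n : ℝ) ^ 2 - n + 1) ^ 2 < 0
      nlinarith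
    have := intermediate_value_Icc' hn1.le hg
    obtain ⟨x, hx, hx0⟩ := this ⟨hgn.le, hgc.le⟩
    have hxc : c < x := by
      rcases hx.1.lt_or_eq with h | h
      · exact h
      · rw [← h] at hx0
        linarith
    refine ⟨x, by linarith, by linarith, ?_⟩
    have : (n : ℝ) * (x * (x - 1) ^ 2) - (x ^ 2 - x + 1) ^ 2 = 0 := hx0
    linarith

/-- For every real `C` there is an alternating knot diagram whose Alexander polynomial has a zero
with real part greater than `C`. -/
theorem unbounded_zeros (C : ℝ) : ∃ D : KnotDiagram, D.IsAlternating ∧ ∃ z : ℂ, z ≠ 0 ∧ C < z.re ∧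
    ∀ p₀, D.alexander p₀ ≠ 0 ∧ aeval z (D.alexander p₀) = 0 := by
  obtain ⟨n, hn, x, hx, hx1, hroot⟩ := exists_root C
  have hx0 : (x : ℂ) ≠ 0 := by
    intro h
    have : x = 0 := by exact_mod_cast h
    linarith
  have h1x : (1 : ℂ) - x ≠ 0 := by
    intro h
    have : (1 : ℝ) - x = 0 := by exact_mod_cast h
    linarith
  have hq : (x : ℝ) ^ 2 - x + 1 ≠ 0 := by nlinarith [sq_nonneg (x - 1)]
  have hqc : (x : ℂ) ^ 2 - x + 1 ≠ 0 := by exact_mod_cast hq
  have hrootc : (n : ℂ) * (x * (x - 1) ^ 2) = ((x : ℂ) ^ 2 - x + 1) ^ 2 := by exact_mod_cast hroot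
  have hz : ∀ p₀, aeval (x : ℂ) ((diagram n hn).alexander p₀) = 0 := by
    refine diagram_zero hn (x : ℂ) (x * (x - 1) / (x ^ 2 - x + 1)) hx0 h1x ?_ ?_
    · rw [div_mul_cancel₀ _ hqc]
    · rw [mul_div_assoc', div_mul_eq_mul_div, div_eq_iff hqc]
      linear_combination hrootc
  exact ⟨diagram n hn, alternating (Fin.last n), x, hx0, by simpa using hx,
    fun p₀ => ⟨KnotDiagram.alexander_ne_zero _ p₀, hz p₀⟩⟩

end Pool.Agent.Lib.MP_644796_gt
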