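import Mathlib

/-!
# Planar knot diagrams and their Alexander polynomials

Knots are represented by planar knot diagrams, encoded as signed Gauss codes of genus zero, and the
Alexander polynomial is computed from a diagram by Fox calculus on the Wirtinger presentation.
-/

open Polynomial

namespace Pool.Agent.Lib.MP_644796_gt

/-! ## Knot diagrams

`V` is the set of crossings. While the knot is traversed once, each crossing `v` is passed twice:
the pair `(v, true)` is the over-passage and `(v, false)` is the under-passage. A half-edge is a
pair `(p, d)` of a passage `p` and a Boolean `d`: `(p, true)` is the half-edge along which the knot
leaves the passage `p`, and `(p, false)` is the half-edge along which it enters the passage `p`. -/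

/-- The next half-edge, in counterclockwise order, at the same crossing.
At a positive crossing the counterclockwise order is over-out, under-out, over-in, under-in; at a
negative crossing it is under-out, over-out, under-in, over-in. -/
def rotate {V : Type} (positive : V → Bool) (h : (V × Bool) × Bool) : (V × Bool) × Bool :=
  ((h.1.1, !h.1.2), if h.1.2 = positive h.1.1 then h.2 else !h.2)

/-- The other half-edge of the same edge, where `next p` is the passage that follows the passage
`p` along the knot. -/
def otherEnd {V : Type} (next : Equiv.Perm (V × Bool)) (h : (V × Bool) × Bool) :
    (V × Bool) × Bool :=
  if h.2 then (next h.1, false) else (next.symm h.1, true)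

/-- An oriented knot diagram on the sphere with at least one crossing, encoded by its signed Gauss
code. -/
structure KnotDiagram where
  /-- The crossings. -/
  V : Type
  [fintypeV : Fintype V]
  [decidableEqV : DecidableEq V]
  /-- `positive v` tells whether the crossing `v` is positive (right-handed) or negative. -/
  positive : V → Bool
  /-- `next p` is the passage that follows the passage `p` along the oriented knot. -/
  next : Equiv.Perm (V × Bool)
  /-- The diagram has only one component. -/
  one_component : ∀ p q, next.SameCycle p q
  /-- The diagram has genus zero: the number of its faces (the orbits of the permutation of the
  half-edges that goes to the other end of the edge and then rotates) is the number of crossings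
  plus two. As there are twice as many edges as crossings, this says that the Euler characteristic
  of the surface which carries the diagram is two. -/
  planar : Nat.card (Quot fun h k => rotate positive (otherEnd next h) = k) = Fintype.card V + 2

attribute [instance] KnotDiagram.fintypeV KnotDiagram.decidableEqV

namespace KnotDiagram

/-- A diagram is alternating if, along the knot, over-passages and under-passages alternate. -/
def IsAlternating (D : KnotDiagram) : Prop := ∀ p, (D.next p).2 = !p.2

/-- The Alexander matrix of a diagram (Fox calculus applied to the Wirtinger presentation). Both
its rows and its columns are indexed by the passages: the column of `p` stands for the edge which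
leaves the passage `p`, and the row of `p` is the relation read at the passage `p`. If `x` is the
edge entering the passage, `y` the edge leaving it and `o` the over-strand of the crossing, the
relation is `x - y` at an over-passage, `(1 - t) o + t x - y` at the under-passage of a positive
crossing and `(1 - t) o + t y - x` at the under-passage of a negative crossing. -/
noncomputable def alexanderMatrix (D : KnotDiagram) : Matrix (D.V × Bool) (D.V × Bool) ℤ[X] :=
  Matrix.of fun p =>
    if p.2 then
      Pi.single (D.next.symm p) 1 - Pi.single p 1
    else if D.positive p.1 then
      (1 - X : ℤ[X]) • Pi.single (p.1, true) 1 + (X : ℤ[X]) • Pi.single (D.next.symm p) 1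
        - Pi.single p 1
    else
      (1 - X : ℤ[X]) • Pi.single (p.1, true) 1 + (X : ℤ[X]) • Pi.single p 1
        - Pi.single (D.next.symm p) 1

/-- The Alexander polynomial of a diagram, up to a unit `± t ^ k`: the determinant of the Alexander
matrix with one row and one column removed, here those of a passage `p₀`. -/
noncomputable def alexander (D : KnotDiagram) (p₀ : D.V × Bool) : ℤ[X] :=
  (D.alexanderMatrix.submatrix (Subtype.val : {p // p ≠ p₀} → D.V × Bool)
    (Subtype.val : {p // p ≠ p₀} → D.V × Bool)).det

end KnotDiagram

end Pool.Agent.Lib.MP_644796_gt
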